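import Mathlib
import Pool.Agent.Run7.h185.FOM.Defs
import Pool.Agent.Run7.h185.FOM.Contains
import Pool.Agent.Run7.h185.FOM.Final

/-!
For each `N ≥ 1` the degree of a best field of definition over the field of moduli is bounded
uniformly for all morphisms of `ℙ^N` of degree at least two.
-/

namespace Pool.Agent.Results.MP_db5b97_nt.UniformBound

open Run7.h185.FOM

/-- The definition of `FOMFOD` uses the degree `[L : K_f]` for the fields of definition `L` of `f`;
these all contain the field of moduli `K_f`. -/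
theorem fieldOfModuli_le {N d : ℕ} (f : Mor N d) (L : IntermediateField ℚ Qbar)
    (h : f.IsFieldOfDefinition L) : f.fieldOfModuli ≤ L :=
  f.fieldOfModuli_le L h

/-- **For each `N ≥ 1`, `sup_{d ≥ 2} FOM/FOD(N, d)` is finite.** -/
theorem result (N : ℕ) (_hN : 1 ≤ N) : (⨆ d : {d : ℕ // 2 ≤ d}, FOMFOD N d) < ⊤ := by
  obtain ⟨C, hC⟩ := exists_bound N
  refine lt_of_le_of_lt (b := (C : ℕ∞)) ?_ (ENat.coe_lt_top C)
  refine iSup_le fun d => ?_
  refine iSup_le fun f => ?_
  obtain ⟨L, hL, _, hrank⟩ := hC d d.2 f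
  refine (iInf_le _ ⟨L, hL⟩).trans ?_
  have h1 := Cardinal.toENat.monotone' hrank
  refine le_trans h1 ?_
  simp

end Pool.Agent.Results.MP_db5b97_nt.UniformBound
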